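import Pool.Agent.Helper14.LE.St

/-!
# Project LE, module CRS: an oriented kernel field of a submersion
-/

set_option autoImplicit false

namespace Pool.Agent.Helper16.LE

open Pool.Agent.Helper14.LK Pool.Agent.Helper14.LE
open scoped ContDiff Topology
open MeasureTheory Set Filter

/-- the matrix with the rows of `A` and the last row `r` -/
noncomputable def mA {k : ℕ} (A : EE (k + 1) →L[ℝ] EE k) (r : Fin (k + 1) → ℝ) :
    Matrix (Fin (k + 1)) (Fin (k + 1)) ℝ :=
  fun i j => Fin.lastCases (motive := fun _ => ℝ) (r j)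
    (fun i' => A (EuclideanSpace.single j 1) i') i

variable {k : ℕ} {A : EE (k + 1) →L[ℝ] EE k} {r s : Fin (k + 1) → ℝ}

private theorem mA_last (j : Fin (k + 1)) : mA A r (Fin.last k) j = r j := by
  unfold mA
  rw [Fin.lastCases_last]

private theorem mA_cs (i : Fin k) (j : Fin (k + 1)) :
    mA A r i.castSucc j = A (EuclideanSpace.single j 1) i := by
  unfold mA
  rw [Fin.lastCases_castSucc]

private theorem mA_update : (mA A r).updateRow (Fin.last k) s = mA A s := by
  ext i j
  refine Fin.lastCases ?_ (fun i' => ?_) i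
  · rw [Matrix.updateRow_self, mA_last]
  · rw [Matrix.updateRow_ne (Fin.castSucc_lt_last i').ne, mA_cs, mA_cs]

/-- the generalized cross product of the rows of `A` -/
noncomputable def cr {k : ℕ} (A : EE (k + 1) →L[ℝ] EE k) : EE (k + 1) :=
  WithLp.toLp 2 (fun j => (mA A (Pi.single j 1)).det)

private theorem cr_apply (r : Fin (k + 1) → ℝ) (j : Fin (k + 1)) :
    cr A j = Matrix.adjugate (mA A r) j (Fin.last k) := by
  rw [Matrix.adjugate_apply, mA_update]
  rfl

private theorem sum_cr (r : Fin (k + 1) → ℝ) (i : Fin (k + 1)) :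
    ∑ j, mA A r i j * cr A j = if i = Fin.last k then (mA A r).det else 0 := by
  have h := congrFun (congrFun (Matrix.mul_adjugate (mA A r)) i) (Fin.last k)
  rw [Matrix.mul_apply, Matrix.smul_apply, Matrix.one_apply, smul_eq_mul, mul_boole] at h
  rw [← h]
  apply Finset.sum_congr rfl
  intro j _
  rw [cr_apply r]

private theorem A_apply (r : Fin (k + 1) → ℝ) (x : EE (k + 1)) (i : Fin k) :
    A x i = ∑ j, mA A r i.castSucc j * x j := by
  have hx : x = ∑ j, x j • EuclideanSpace.single j (1 : ℝ) := by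
    ext i
    simp [Pi.single_apply]
  have h1 : A x = ∑ j, x j • A (EuclideanSpace.single j (1 : ℝ)) := by
    nth_rewrite 1 [hx]
    rw [map_sum]
    apply Finset.sum_congr rfl
    intro j _
    rw [map_smul]
  rw [h1]
  simp only [WithLp.ofLp_sum, Finset.sum_apply, PiLp.smul_apply, smul_eq_mul]
  apply Finset.sum_congr rfl
  intro j _
  rw [mA_cs, mul_comm]

private theorem A_cr : A (cr A) = 0 := by
  ext i
  rw [A_apply 0, sum_cr, if_neg (Fin.castSucc_lt_last i).ne]
  rfl

private theorem cr_ne (hA : Function.Surjective A) : cr A ≠ 0 := by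
  have hr : Module.finrank ℝ (LinearMap.ker (A : EE (k + 1) →ₗ[ℝ] EE k)) = 1 := by
    have h1 := LinearMap.finrank_range_add_finrank_ker (A : EE (k + 1) →ₗ[ℝ] EE k)
    have h2 : LinearMap.range (A : EE (k + 1) →ₗ[ℝ] EE k) = ⊤ := LinearMap.range_eq_top.2 hA
    rw [h2, finrank_top, finrank_euclideanSpace, finrank_euclideanSpace, Fintype.card_fin,
      Fintype.card_fin] at h1
    omega
  obtain ⟨u, hu0, hu⟩ := finrank_eq_one_iff'.1 hr
  have hdet : (mA A fun j => (u : EE (k + 1)) j).det ≠ 0 := by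
    intro h0
    obtain ⟨w, hw0, hw⟩ := Matrix.exists_mulVec_eq_zero_iff.2 h0
    have hAw : A (WithLp.toLp 2 w) = 0 := by
      ext i
      rw [A_apply fun j => (u : EE (k + 1)) j]
      exact congrFun hw i.castSucc
    obtain ⟨c, hc⟩ := hu ⟨WithLp.toLp 2 w, hAw⟩
    have hw2 : ∀ j, w j = c * (u : EE (k + 1)) j := by
      intro j
      have h3 := congrArg (fun v : LinearMap.ker (A : EE (k + 1) →ₗ[ℝ] EE k) =>
        (v : EE (k + 1)) j) hc
      exact h3.symm
    have hlast : ∑ j, (u : EE (k + 1)) j * w j = 0 := by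
      have h3 := congrFun hw (Fin.last k)
      rw [Matrix.mulVec, dotProduct] at h3
      simp only [mA_last] at h3
      exact h3
    have hsum : c * ∑ j, (u : EE (k + 1)) j ^ 2 = 0 := by
      rw [Finset.mul_sum, ← hlast]
      apply Finset.sum_congr rfl
      intro j _
      rw [hw2 j]
      ring
    rcases mul_eq_zero.1 hsum with h4 | h4
    · apply hw0
      funext j
      rw [hw2 j, h4, zero_mul]
      rfl
    · apply hu0
      apply Subtype.ext
      ext j
      have h5 := (Finset.sum_eq_zero_iff_of_nonneg (fun j _ => sq_nonneg _)).1 h4 j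
        (Finset.mem_univ j)
      exact pow_eq_zero_iff (two_ne_zero) |>.1 h5
  intro hcr
  apply hdet
  have h6 := sum_cr (A := A) (fun j => (u : EE (k + 1)) j) (Fin.last k)
  rw [if_pos rfl] at h6
  rw [← h6]
  apply Finset.sum_eq_zero
  intro j _
  rw [hcr]
  exact mul_zero _

private theorem cr_hd : cr (hd : EE (k + 1) →L[ℝ] EE k) = mk (0, 1) := by
  have h1 : mA (hd : EE (k + 1) →L[ℝ] EE k) (Pi.single (Fin.last k) 1) = 1 := by
    ext i j
    refine Fin.lastCases ?_ (fun i' => ?_) i
    · rw [mA_last, Matrix.one_apply, Pi.single_apply]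
      simp only [eq_comm]
    · rw [mA_cs, hd_apply, Matrix.one_apply]
      simp
  ext j
  rw [cr_apply (Pi.single (Fin.last k) 1), h1, Matrix.adjugate_one]
  refine Fin.lastCases ?_ (fun j' => ?_) j
  · rw [mk_last, Matrix.one_apply_eq]
  · rw [mk_castSucc, Matrix.one_apply_ne (Fin.castSucc_lt_last j').ne]
    rfl

private theorem cr_smooth {B : EE (k + 1) → (EE (k + 1) →L[ℝ] EE k)} (hB : ContDiff ℝ ∞ B) :
    ContDiff ℝ ∞ fun x => cr (B x) := by
  rw [contDiff_euclidean]
  intro j
  have h1 : ∀ i j' : Fin (k + 1), ContDiff ℝ ∞ fun x => mA (B x) (Pi.single j 1) i j' := by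
    intro i j'
    refine Fin.lastCases ?_ (fun i' => ?_) i
    · simp only [mA_last]
      exact contDiff_const
    · simp only [mA_cs]
      exact contDiff_euclidean.1 (hB.clm_apply contDiff_const) i'
  have h2 : (fun x => cr (B x) j) = fun x => ∑ σ : Equiv.Perm (Fin (k + 1)),
      ((Equiv.Perm.sign σ : ℤ) : ℝ) * ∏ i, mA (B x) (Pi.single j 1) (σ i) i := by
    funext x
    exact Matrix.det_apply' _
  rw [h2]
  exact ContDiff.sum fun σ _ => contDiff_const.mul (contDiff_prod fun i _ => h1 _ _)

theorem hCRS : StCRS := by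
  intro k f R hf hs hstd
  refine ⟨fun x => cr (fderiv ℝ f x), cr_smooth (contDiff_infty_iff_fderiv.1 hf).2,
    fun x => A_cr, fun x => cr_ne (hs x), ?_⟩
  intro x hx
  have h1 : f =ᶠ[𝓝 x] (hd : EE (k + 1) →L[ℝ] EE k) := by
    have h2 : {y : EE (k + 1) | R < ‖y‖} ∈ 𝓝 x :=
      (isOpen_lt continuous_const continuous_norm).mem_nhds hx
    filter_upwards [h2] with y hy
    exact hstd y (le_of_lt hy)
  show cr (fderiv ℝ f x) = _
  rw [h1.fderiv_eq, ContinuousLinearMap.fderiv]
  exact cr_hd

end Pool.Agent.Helper16.LE
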